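import Pool.Agent.TH84.UA.All

/-!
# Poonen's strengthening for almost all union-closed families on a set of `n` elements

For all but a `2 ^ (- c * C(n, n / 2))` fraction of the union-closed families of subsets of `Fin n`
there are at least `√n / 20` elements in strictly more than half of the members. The exceptional
families among **all** union-closed families are compared with the **separating** ones, so the
statement holds in the class of all union-closed families and in the class of the separating ones
(Poonen's setting; a power set is exceptional).

Proof in outline. For a union-closed family `F` call a set `D` free if some `y ∈ D` lies in no member
properly inside `D`. A nonempty set that is not free is a member. A pair `(D, y)` of this kind blocks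
all sets `A` with `y ∈ A ⊂ D`; they are not members. A greedy choice gives a certificate: at most
`2 ^ n / T` pairs, `T ≈ √n (log n)^2`, such that every pair blocks at most `T` further sets. Given the
certificate and the sets far from the middle, `F` is decoded from the small sets to the large ones
with one bit for each free set in the window that is not blocked by the certificate (unknown sets).
On a random maximal chain there is on average at most `1 + o(1)` unknown set. If there are at least
`(399 / 400) C(n, n / 2)` unknown sets then most chains meet an unknown set very close to the middle,
which implies that almost all sets above the middle are members and that there are few members below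
the middle, so that the average size of the members is larger than `n / 2 + √n / 40`. All other
families are counted by the code. There are at least `2 ^ C(n, n / 2)` separating union-closed families.
-/

namespace Pool.Agent.Results.MP_75f39d_co.AlmostAllFamilies

open Finset
open scoped Classical

/-- There are `c > 0` and `N` such that for every `n ≥ N` the number of the union-closed families `F`
of subsets of `Fin n` for which fewer than `√n / 20` elements lie in strictly more than half of the
members of `F` is at most `2 ^ (- c * C(n, n / 2))` times the number of the separating union-closed
families of subsets of `Fin n`. -/
theorem result : ∃ c : ℝ, 0 < c ∧ ∃ N : ℕ, ∀ n : ℕ, N ≤ n →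
    ((univ.filter (fun F : Finset (Finset (Fin n)) => (∀ A ∈ F, ∀ B ∈ F, A ∪ B ∈ F) ∧
      20 * ((univ.filter (fun x : Fin n =>
        F.card < 2 * (F.filter (fun A => x ∈ A)).card)).card : ℝ) < Real.sqrt n)).card : ℝ) ≤
    (2 : ℝ) ^ (-(c * (n.choose (n / 2) : ℝ))) *
      ((univ.filter (fun F : Finset (Finset (Fin n)) => (∀ A ∈ F, ∀ B ∈ F, A ∪ B ∈ F) ∧
        ∀ x y : Fin n, x ≠ y → ∃ A ∈ F, ¬ (x ∈ A ↔ y ∈ A))).card : ℝ) :=
  Pool.Agent.TH84.UA.main

end Pool.Agent.Results.MP_75f39d_co.AlmostAllFamilies
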