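import Pool.Agent.TH903.Semi.Family
import Pool.Agent.TH903.Semi.StrictSix

set_option autoImplicit false

namespace Pool.Agent.Results.MP_75f39d_co.LowerSemimodular

open OrderDual

/-- Let `A` be a separating finite union-closed family which is not a power set, and suppose that
`A ∪ {∅}`, ordered by inclusion, is a lower semimodular lattice `L` with at most six exceptional
meet-irreducible elements, where a meet-irreducible `m` is exceptional if some `x > m` is not above
all atoms. Then some element of the universe lies in strictly more than half of the members. -/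
theorem result {α : Type*} [DecidableEq α] (A : Finset (Finset α)) (hne : A.Nonempty)
    (hU : ∀ X ∈ A, ∀ Y ∈ A, X ∪ Y ∈ A)
    (hsep : ∀ x ∈ A.sup id, ∀ y ∈ A.sup id, x ≠ y →
      ∃ S ∈ A, (x ∈ S ∧ y ∉ S) ∨ (y ∈ S ∧ x ∉ S))
    (hpow : A ≠ (A.sup id).powerset)
    (L : Type) [Lattice L] [BoundedOrder L] [IsLowerModularLattice L]
    (e : {X : Finset α // X ∈ insert ∅ A} ≃o L)
    (h6 : {m : L | InfIrred m ∧ ∃ a x : L, IsAtom a ∧ m < x ∧ ¬ a ≤ x}.ncard ≤ 6) :
    ∃ x ∈ A.sup id, A.card < 2 * (A.filter (fun S => x ∈ S)).card := by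
  classical
  have hfin : Finite L := Finite.of_equiv _ e.toEquiv
  refine Pool.Agent.TH903.Semi.family A hne hU hsep hpow Lᵒᵈ
    (e.trans (OrderIso.dualDual L)) (Pool.Agent.TH903.Semi.strict_upper Lᵒᵈ (le_trans ?_ h6))
  apply Set.ncard_le_ncard_of_injOn ofDual
  · rintro f ⟨hf, c, x, hc, hxf, hxc⟩
    refine ⟨supIrred_toDual.mp hf, ofDual c, ofDual x, ?_, hxf, hxc⟩
    exact isCoatom_dual_iff_isAtom.mp hc
  · exact ofDual.injective.injOn

end Pool.Agent.Results.MP_75f39d_co.LowerSemimodular
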