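import Pool.Agent.TH903.Semi.Family
import Pool.Agent.TH903.Semi.StrictAt

set_option autoImplicit false

namespace Pool.Agent.Results.MP_75f39d_co.OneMember

open OrderDual

/-- The element `M` is a direct factor of `L`: for some `b` the lattice `L` is the product of the
interval `[⊥, M]` and the two-element chain `{⊥, b}`, i.e. `b` is not below `M`, every element is
below `M` or above `b`, and `y ↦ y ⊓ M`, `x ↦ x ⊔ b` are inverse bijections between the elements
above `b` and the elements below `M`. -/
def DirectFactor {L : Type*} [Lattice L] (M : L) : Prop :=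
  ∃ b : L, ¬ b ≤ M ∧ (∀ x, ¬ x ≤ M → b ≤ x) ∧ (∀ y, b ≤ y → (y ⊓ M) ⊔ b = y) ∧
    (∀ x, x ≤ M → (x ⊔ b) ⊓ M = x)

/-- Let `A` be a separating finite union-closed family which is not a power set, such that
`A ∪ {∅}`, ordered by inclusion, is a lower semimodular lattice `L`. Let `a` be an element of `L`
such that at most two meet-irreducible elements `m` have some `x > m` not above `a`, and let `M` be
a meet-irreducible element which is not above `a` and not a direct factor of `L`. Then some element
of the universe lies in strictly more than half of the members of `A`. -/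
theorem result {α : Type*} [DecidableEq α] (A : Finset (Finset α)) (hne : A.Nonempty)
    (hU : ∀ X ∈ A, ∀ Y ∈ A, X ∪ Y ∈ A)
    (hsep : ∀ x ∈ A.sup id, ∀ y ∈ A.sup id, x ≠ y →
      ∃ S ∈ A, (x ∈ S ∧ y ∉ S) ∨ (y ∈ S ∧ x ∉ S))
    (hpow : A ≠ (A.sup id).powerset)
    (L : Type) [Lattice L] [BoundedOrder L] [IsLowerModularLattice L]
    (e : {X : Finset α // X ∈ insert ∅ A} ≃o L)
    (a M : L) (h2 : {m : L | InfIrred m ∧ ∃ x : L, m < x ∧ ¬ a ≤ x}.ncard ≤ 2)
    (hM : InfIrred M) (haM : ¬ a ≤ M) (hfac : ¬ DirectFactor M) :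
    ∃ x ∈ A.sup id, A.card < 2 * (A.filter (fun S => x ∈ S)).card := by
  classical
  have hfin : Finite L := Finite.of_equiv _ e.toEquiv
  refine Pool.Agent.TH903.Semi.family A hne hU hsep hpow Lᵒᵈ
    (e.trans (OrderIso.dualDual L)) (Or.inl
      (Pool.Agent.TH903.Semi.strict_at (toDual a) (le_trans ?_ h2) (toDual M)
        (supIrred_toDual.mpr hM) haM ?_))
  · apply Set.ncard_le_ncard_of_injOn ofDual
    · rintro f ⟨hf, x, hxf, hxc⟩
      exact ⟨supIrred_toDual.mp hf, ofDual x, hxf, hxc⟩
    · exact ofDual.injective.injOn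
  · rintro ⟨m, hD⟩
    exact hfac ⟨ofDual m, hD.nle, fun x hx => hD.cover (toDual x) hx,
      fun y hy => hD.down (toDual y) hy, fun x hx => hD.up (toDual x) hx⟩

end Pool.Agent.Results.MP_75f39d_co.OneMember
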