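import Pool.Agent.TH903.Semi.Family
import Pool.Agent.TH903.Semi.Lower

set_option autoImplicit false

namespace Pool.Agent.Results.MP_75f39d_co.UpperSemimodular

/-- Let `A` be a separating finite union-closed family which is not a power set, and suppose that
`A ∪ {∅}`, ordered by inclusion, is an (upper) semimodular lattice. Then some element of the
universe lies in strictly more than half of the members of `A`. -/
theorem result {α : Type*} [DecidableEq α] (A : Finset (Finset α)) (hne : A.Nonempty)
    (hU : ∀ X ∈ A, ∀ Y ∈ A, X ∪ Y ∈ A)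
    (hsep : ∀ x ∈ A.sup id, ∀ y ∈ A.sup id, x ≠ y →
      ∃ S ∈ A, (x ∈ S ∧ y ∉ S) ∨ (y ∈ S ∧ x ∉ S))
    (hpow : A ≠ (A.sup id).powerset)
    (L : Type) [Lattice L] [IsUpperModularLattice L]
    (e : {X : Finset α // X ∈ insert ∅ A} ≃o L) :
    ∃ x ∈ A.sup id, A.card < 2 * (A.filter (fun S => x ∈ S)).card := by
  classical
  have hfin : Finite L := Finite.of_equiv _ e.toEquiv
  have hft : Fintype L := Fintype.ofFinite L
  have hnonempty : Nonempty L := ⟨e ⟨∅, Finset.mem_insert_self _ _⟩⟩
  have : BoundedOrder L := Fintype.toBoundedOrder L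
  exact Pool.Agent.TH903.Semi.family A hne hU hsep hpow Lᵒᵈ
    (e.trans (OrderIso.dualDual L)) (Pool.Agent.TH903.Semi.strict_lower Lᵒᵈ)

end Pool.Agent.Results.MP_75f39d_co.UpperSemimodular
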